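import Mathlib
import Pool.Agent.Helper661.HDBase
import Pool.Agent.Helper661.HDFam

/-!
Entire solutions of `u₁₁ u₂₂ = 1`: description of all solutions with a bijective hodograph map, and
an explicit family with infinitely many parameters.
-/

open Set Filter Topology
open scoped ContDiff


namespace Pool.Agent.Results.MP_59489a_an.HodographFamily

open Pool.Agent.Helper661.HD

theorem result :
    -- the solutions given by hodograph pairs are exactly those with a bijective hodograph map and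
    -- a nowhere vanishing differential of `u₁₁`
    (∀ u : ℝ × ℝ → ℝ, ContDiff ℝ ∞ u → IsEntire u →
      ((Function.Bijective (hod u) ∧ ∀ p, fderiv ℝ (d1 (d1 u)) p ≠ 0) ↔
        ∃ X Y, Hodo X Y ∧ SolOf X Y u)) ∧
    -- the hodograph pair is unique
    (∀ u X Y X' Y' : ℝ × ℝ → ℝ, Hodo X Y → SolOf X Y u → Hodo X' Y' → SolOf X' Y' u →
      X' = X ∧ Y' = Y) ∧
    -- every hodograph pair gives a solution, unique up to affine functions
    (∀ X Y : ℝ × ℝ → ℝ, Hodo X Y → ∃ u : ℝ × ℝ → ℝ, ContDiff ℝ ∞ u ∧ IsEntire u ∧ SolOf X Y u ∧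
      ∀ u' : ℝ × ℝ → ℝ, IsEntire u' → SolOf X Y u' →
        ∃ a b c : ℝ, ∀ p, u' p = u p + (a + b * p.1 + c * p.2)) ∧
    -- a criterion
    (∀ X : ℝ × ℝ → ℝ, ContDiff ℝ ∞ X → (∀ z, d1 (d1 X) z + d1 X z + d2 (d2 X) z = 0) →
      ∀ m C : ℝ, 0 < m → (∀ z, m ≤ d1 X z) → (∀ z, X z ≤ m * z.1 + C) → ∃ Y, Hodo X Y) ∧
    -- an explicit family with infinitely many parameters
    (∀ (T : Finset (ℝ × ℝ)) (c : ℝ × ℝ → ℝ), Adm T c → ∃ Y u : ℝ × ℝ → ℝ,
      Hodo (XT T c) Y ∧ ContDiff ℝ ∞ u ∧ IsEntire u ∧ SolOf (XT T c) Y u ∧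
      ∀ u', Equivalent u u' → ∀ p, fderiv ℝ (d1 (d1 u')) p ≠ 0) ∧
    -- rigidity of the parameters
    (∀ (T T' : Finset (ℝ × ℝ)) (c c' Y Y' u u' : ℝ × ℝ → ℝ), Adm T c → Adm T' c' →
      Hodo (XT T c) Y → Hodo (XT T' c') Y' → IsEntire u → IsEntire u' →
      SolOf (XT T c) Y u → SolOf (XT T' c') Y' u' → Equivalent u u' →
      ∃ ρ : ℝ, (T' = T ∧ ∀ q ∈ T, c' q * Real.exp (q.1 * ρ) = c q) ∨
        (T' = T.image mir ∧ ∀ q ∈ T, c' (mir q) * Real.exp (q.1 * ρ) = c q)) := by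
  refine ⟨?_, ?_, ?_, ?_, ?_, ?_⟩
  · intro u hu he
    constructor
    · rintro ⟨hb, hc⟩
      exact hodo_of_sol hu he hb hc
    · rintro ⟨X, Y, h, hX⟩
      exact ⟨hod_bij h hX, nowhere_crit h hu hX⟩
  · intro u X Y X' Y' h hX _ hX'
    exact pair_unique h hX hX'
  · intro X Y h
    obtain ⟨u, hu, he, hX⟩ := exists_sol h
    exact ⟨u, hu, he, hX, fun u' he' hX' => sol_unique h he he' hX hX'⟩
  · intro X hX hL m C hm h1 h2
    exact hodo_crit hX hL hm h1 h2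
  · intro T c hT
    obtain ⟨Y, hY⟩ := hodo_XT hT
    obtain ⟨u, hu, he, hX⟩ := exists_sol hY
    exact ⟨Y, u, hY, hu, he, hX, fun u' h => crit_equiv hu he (nowhere_crit hY hu hX) h⟩
  · intro T T' c c' Y Y' u u' hT hT' _ h' hu _ hX hX' he
    exact inequiv hT hT' h' hu hX hX' he

end Pool.Agent.Results.MP_59489a_an.HodographFamily
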